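import Pool.Agent.Helper82.BR.St3

/-!
# Project BR8, module R3
-/

set_option autoImplicit false

namespace Pool.Agent.Helper35.BR

open Pool.Agent.Helper82.BR
open scoped ComplexConjugate

/-- The equation of the bisector of `0` and `b`, for `b = ρ conj b`. -/
private lemma bis {z b ρ : ℂ} (hb0 : b ≠ 0) (hb : b = ρ * conj b) (h : dist z 0 = dist z b) :
    z + ρ * conj z = b := by
  have h1 : z * conj z = (z - b) * conj (z - b) := by
    rw [Complex.mul_conj, Complex.mul_conj, Complex.normSq_eq_norm_sq, Complex.normSq_eq_norm_sq,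
      ← dist_eq_norm, ← h, dist_zero_right]
  rw [map_sub] at h1
  have hc : conj b ≠ 0 := (map_ne_zero _).2 hb0
  have h2 : conj b * (z + ρ * conj z - b) = 0 := by
    linear_combination h1 - conj z * hb
  rcases mul_eq_zero.1 h2 with h3 | h3
  · exact absurd h3 hc
  · exact sub_eq_zero.1 h3

private lemma two {F : Finset ℂ} {b1 b2 b3 : ℂ} {P1 P2 P3 : Prop}
    (h : ∀ z ∈ F, (z = b1 ∧ P1) ∨ (z = b2 ∧ P2) ∨ (z = b3 ∧ P3)) (hc : 2 ≤ F.card) :
    (P1 ∧ P2) ∨ (P1 ∧ P3) ∨ (P2 ∧ P3) := by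
  obtain ⟨x, hx, y, hy, hxy⟩ := Finset.one_lt_card.1 hc
  rcases h x hx with ⟨a, p⟩ | ⟨a, p⟩ | ⟨a, p⟩ <;> rcases h y hy with ⟨b, q⟩ | ⟨b, q⟩ | ⟨b, q⟩
  · exact absurd (a.trans b.symm) hxy
  · exact Or.inl ⟨p, q⟩
  · exact Or.inr (Or.inl ⟨p, q⟩)
  · exact Or.inl ⟨q, p⟩
  · exact absurd (a.trans b.symm) hxy
  · exact Or.inr (Or.inr ⟨p, q⟩)
  · exact Or.inr (Or.inl ⟨q, p⟩)
  · exact Or.inr (Or.inr ⟨q, p⟩)
  · exact absurd (a.trans b.symm) hxy

private lemma one {F : Finset ℂ} {r : ℂ} {P : Prop}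
    (h : ∀ z ∈ F, z = r ∨ P) (hc : 2 ≤ F.card) : P := by
  obtain ⟨x, hx, y, hy, hxy⟩ := Finset.one_lt_card.1 hc
  rcases h x hx with a | a
  · rcases h y hy with b | b
    · exact absurd (a.trans b.symm) hxy
    · exact b
  · exact a

/-- R3. -/
theorem hR3 : StR3 := by
  intro S w ρ b1 b2 b3 hcfg hw
  obtain ⟨hw2, hn, hS, hb1, hb2, hb3, c1, c2, c3, hmem⟩ := hcfg
  have hc : ρ * conj ρ = 1 := by
    rw [Complex.mul_conj, Complex.normSq_eq_norm_sq, hn]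
    norm_num
  have hQ : ρ ^ 6 - ρ ^ 3 + 1 = 0 := by
    rw [← hw] at hw2
    linear_combination hw2
  have hρ : ρ ≠ 0 := by
    intro h
    rw [h, zero_mul] at hc
    exact zero_ne_one hc
  -- polynomials in `ρ` which do not vanish
  have g1 : 1 - ρ - ρ ^ 2 + ρ ^ 3 ≠ 0 := by
    intro h
    have : (1 : ℂ) = 0 := by
      linear_combination ((-4/3) + (-5/3)*ρ + (-4/3)*ρ^2 + (2/3)*ρ^3 + (4/3)*ρ^4 + (5/3)*ρ^5) * h
        + ((7/3) + (1/3)*ρ + (-5/3)*ρ^2) * hQ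
    exact one_ne_zero this
  have g2 : 1 - ρ - ρ ^ 4 + ρ ^ 5 ≠ 0 := by
    intro h
    have : (1 : ℂ) = 0 := by
      linear_combination ((-2/3) + (-1/3)*ρ + (-2/3)*ρ^2 + (1/3)*ρ^3 + (2/3)*ρ^4 + (4/3)*ρ^5) * h
        + ((5/3) + (-1/3)*ρ + (1/3)*ρ^2 + (2/3)*ρ^3 + (-4/3)*ρ^4) * hQ
    exact one_ne_zero this
  have g3 : 1 + ρ + ρ ^ 2 ≠ 0 := by
    intro h
    have : (1 : ℂ) = 0 := by
      linear_combination (ρ^3 - ρ^4) * h + hQ
    exact one_ne_zero this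
  have g4 : 1 + ρ - ρ ^ 2 + ρ ^ 3 + ρ ^ 4 ≠ 0 := by
    intro h
    have : (1 : ℂ) = 0 := by
      linear_combination ((5/17) + (-2/17)*ρ + (4/17)*ρ^2 + (-4/17)*ρ^3 + (2/17)*ρ^4
        + (-5/17)*ρ^5) * h + ((12/17) + (-3/17)*ρ + (3/17)*ρ^2 + (5/17)*ρ^3) * hQ
    exact one_ne_zero this
  have g5 : 1 + ρ - ρ ^ 3 + ρ ^ 5 + ρ ^ 6 ≠ 0 := by
    intro h
    have : (1 : ℂ) = 0 := by
      linear_combination (1 - ρ + ρ^2 - ρ^3) * h + ρ^3 * hQ
    exact one_ne_zero this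
  have h1 : 1 - ρ + ρ ^ 2 ≠ 0 := by
    intro h
    have : (1 : ℂ) = 0 := by
      linear_combination ((2/3) + (2/3)*ρ + (-1/3)*ρ^3 + (-1/3)*ρ^4) * h + (1/3) * hQ
    exact one_ne_zero this
  have h2 : 1 - ρ ^ 2 + ρ ^ 4 ≠ 0 := by
    intro h
    have : (1 : ℂ) = 0 := by
      linear_combination (1 + ρ^2 - ρ^3 - ρ^5) * h + ρ^3 * hQ
    exact one_ne_zero this
  have m0 : (0 : ℂ) ∈ S := (hmem 0).2 (Or.inl rfl)
  have m1 : (1 : ℂ) ∈ S := (hmem 1).2 (by tauto)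
  have mρ : ρ ∈ S := (hmem ρ).2 (by tauto)
  have mρ2 : ρ ^ 2 ∈ S := (hmem (ρ ^ 2)).2 (by tauto)
  have mb1 : b1 ∈ S := (hmem b1).2 (by tauto)
  -- the bisector of `0` and `ρ`
  have A : (b1 * (1 + ρ) = ρ ∧ b2 * (1 + ρ) = ρ ^ 2) ∨
      (b1 * (1 + ρ) = ρ ∧ b3 * (1 + ρ ^ 3) = ρ ^ 4) ∨
      (b2 * (1 + ρ) = ρ ^ 2 ∧ b3 * (1 + ρ ^ 3) = ρ ^ 4) := by
    refine two (b1 := b1) (b2 := b2) (b3 := b3) ?_ (hS 0 m0 ρ mρ (Ne.symm hρ))
    intro z hz
    obtain ⟨hz1, hz2⟩ := Finset.mem_filter.1 hz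
    have h := bis (ρ := ρ ^ 2) hρ (by linear_combination (-ρ) * hc) hz2
    rcases (hmem z).1 hz1 with h5 | h5 | h5 | h5 | h5 | h5 | h5 | h5
    · exfalso
      rw [h5, map_zero, mul_zero, add_zero] at h
      exact hρ h.symm
    · exfalso
      rw [h5, map_one, mul_one] at h
      exact h1 (by linear_combination h)
    · exfalso
      rw [h5] at h
      exact hρ (by linear_combination h - ρ * hc)
    · exfalso
      rw [h5, map_pow] at h
      exact h1 (by linear_combination h - (ρ * conj ρ + 1) * hc)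
    · exfalso
      rw [h5, map_pow] at h
      exact h2 (by linear_combination ρ * h - ((ρ * conj ρ) ^ 2 + ρ * conj ρ + 1) * hc)
    · left
      rw [h5] at h
      exact ⟨h5, by linear_combination h + ρ * c1⟩
    · right; left
      rw [h5] at h
      exact ⟨h5, by linear_combination ρ * h + c2⟩
    · right; right
      rw [h5] at h
      exact ⟨h5, by linear_combination ρ ^ 3 * h + c3⟩
  -- the bisector of `0` and `ρ²`
  have B : (b1 * (1 + ρ ^ 3) = ρ ^ 2 ∧ b2 * (1 + ρ) = ρ ^ 2) ∨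
      (b1 * (1 + ρ ^ 3) = ρ ^ 2 ∧ b3 * (1 + ρ) = ρ ^ 3) ∨
      (b2 * (1 + ρ) = ρ ^ 2 ∧ b3 * (1 + ρ) = ρ ^ 3) := by
    refine two (b1 := b1) (b2 := b2) (b3 := b3) ?_
      (hS 0 m0 (ρ ^ 2) mρ2 (Ne.symm (pow_ne_zero 2 hρ)))
    intro z hz
    obtain ⟨hz1, hz2⟩ := Finset.mem_filter.1 hz
    have h := bis (ρ := ρ ^ 4) (pow_ne_zero 2 hρ)
      (by rw [map_pow]; linear_combination (-(ρ ^ 2 * (ρ * conj ρ + 1))) * hc) hz2
    rcases (hmem z).1 hz1 with h5 | h5 | h5 | h5 | h5 | h5 | h5 | h5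
    · exfalso
      rw [h5, map_zero, mul_zero, add_zero] at h
      exact pow_ne_zero 2 hρ h.symm
    · exfalso
      rw [h5, map_one, mul_one] at h
      exact h2 (by linear_combination h)
    · exfalso
      rw [h5] at h
      have h6 : ρ * (1 - ρ + ρ ^ 2) = 0 := by linear_combination h - ρ ^ 3 * hc
      exact h1 ((mul_eq_zero.1 h6).resolve_left hρ)
    · exfalso
      rw [h5, map_pow] at h
      exact pow_ne_zero 2 hρ (by linear_combination h - ρ ^ 2 * (ρ * conj ρ + 1) * hc)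
    · exfalso
      rw [h5, map_pow] at h
      have h6 : ρ * (1 - ρ + ρ ^ 2) = 0 := by
        linear_combination h - ρ * ((ρ * conj ρ) ^ 2 + ρ * conj ρ + 1) * hc
      exact h1 ((mul_eq_zero.1 h6).resolve_left hρ)
    · left
      rw [h5] at h
      exact ⟨h5, by linear_combination h + ρ ^ 3 * c1⟩
    · right; left
      rw [h5] at h
      exact ⟨h5, by linear_combination h + ρ * c2⟩
    · right; right
      rw [h5] at h
      exact ⟨h5, by linear_combination ρ * h + c3⟩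
  -- two formulas for `b1`, two formulas for `b3`
  have x1 : b1 * (1 + ρ) = ρ → b1 * (1 + ρ ^ 3) = ρ ^ 2 → False := by
    intro u v
    have h6 : ρ * (1 - ρ - ρ ^ 2 + ρ ^ 3) = 0 := by
      linear_combination (-(1 + ρ ^ 3)) * u + (1 + ρ) * v
    exact g1 ((mul_eq_zero.1 h6).resolve_left hρ)
  have x3 : b3 * (1 + ρ ^ 3) = ρ ^ 4 → b3 * (1 + ρ) = ρ ^ 3 → False := by
    intro u v
    have h6 : ρ ^ 3 * (1 - ρ - ρ ^ 2 + ρ ^ 3) = 0 := by
      linear_combination (1 + ρ) * u - (1 + ρ ^ 3) * v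
    exact g1 ((mul_eq_zero.1 h6).resolve_left (pow_ne_zero 3 hρ))
  have C : (b1 * (1 + ρ) = ρ ∧ b2 * (1 + ρ) = ρ ^ 2 ∧ b3 * (1 + ρ) = ρ ^ 3) ∨
      (b1 * (1 + ρ ^ 3) = ρ ^ 2 ∧ b2 * (1 + ρ) = ρ ^ 2 ∧ b3 * (1 + ρ ^ 3) = ρ ^ 4) := by
    rcases A with ⟨u, v⟩ | ⟨u, v⟩ | ⟨u, v⟩ <;> rcases B with ⟨p, q⟩ | ⟨p, q⟩ | ⟨p, q⟩
    · exact absurd p (fun p => x1 u p)
    · exact absurd p (fun p => x1 u p)
    · exact Or.inl ⟨u, v, q⟩
    · exact absurd p (fun p => x1 u p)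
    · exact absurd p (fun p => x1 u p)
    · exact absurd q (fun q => x3 v q)
    · exact Or.inr ⟨p, q, v⟩
    · exact absurd q (fun q => x3 v q)
    · exact absurd q (fun q => x3 v q)
  rcases C with ⟨e1, e2, e3⟩ | ⟨e1, e2, e3⟩
  · -- the bisector of `0` and `b1` contains no point
    have hT := hS 0 m0 b1 mb1 (Ne.symm hb1)
    obtain ⟨z, hz⟩ := Finset.card_pos.1 (lt_of_lt_of_le (by norm_num : 0 < 2) hT)
    obtain ⟨hz1, hz2⟩ := Finset.mem_filter.1 hz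
    have h := bis hb1 c1 hz2
    rcases (hmem z).1 hz1 with h5 | h5 | h5 | h5 | h5 | h5 | h5 | h5
    · rw [h5, map_zero, mul_zero, add_zero] at h
      exact hb1 h.symm
    · rw [h5, map_one, mul_one] at h
      exact g3 (by linear_combination (1 + ρ) * h + e1)
    · rw [h5] at h
      exact g3 (by linear_combination (1 + ρ) * h + e1 - (1 + ρ) * hc)
    · rw [h5, map_pow] at h
      exact g4 (by linear_combination (1 + ρ) * ρ * h + ρ * e1
        - (1 + ρ) * (ρ * conj ρ + 1) * hc)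
    · rw [h5, map_pow] at h
      exact g5 (by linear_combination (1 + ρ) * ρ ^ 2 * h + ρ ^ 2 * e1
        - (1 + ρ) * ((ρ * conj ρ) ^ 2 + ρ * conj ρ + 1) * hc)
    · rw [h5, ← c1] at h
      exact hb1 (by linear_combination h)
    · rw [h5] at h
      have h6 : ρ ^ 2 * (1 - ρ + ρ ^ 2) = 0 := by
        linear_combination (1 + ρ) * (ρ ^ 2 * h + c2) - (ρ ^ 2 + 1) * e2 + ρ ^ 2 * e1
      exact h1 ((mul_eq_zero.1 h6).resolve_left (pow_ne_zero 2 hρ))
    · rw [h5] at h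
      have h6 : ρ ^ 3 * (1 - ρ ^ 2 + ρ ^ 4) = 0 := by
        linear_combination (1 + ρ) * (ρ ^ 4 * h + c3) - (ρ ^ 4 + 1) * e3 + ρ ^ 4 * e1
      exact h2 ((mul_eq_zero.1 h6).resolve_left (pow_ne_zero 3 hρ))
  · -- the bisector of `0` and `1` contains only `ρ³`
    refine one (r := ρ ^ 3) ?_ (hS 0 m0 1 m1 zero_ne_one)
    intro z hz
    obtain ⟨hz1, hz2⟩ := Finset.mem_filter.1 hz
    have h := bis (ρ := 1) one_ne_zero (by rw [map_one, mul_one]) hz2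
    rw [one_mul] at h
    rcases (hmem z).1 hz1 with h5 | h5 | h5 | h5 | h5 | h5 | h5 | h5
    · right
      rw [h5, map_zero, add_zero] at h
      exact zero_ne_one h
    · right
      rw [h5, map_one] at h
      exact one_ne_zero (α := ℂ) (by linear_combination h)
    · right
      rw [h5] at h
      exact h1 (by linear_combination ρ * h - hc)
    · right
      rw [h5, map_pow] at h
      exact h2 (by linear_combination ρ ^ 2 * h - (ρ * conj ρ + 1) * hc)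
    · left
      exact h5
    · right
      rw [h5] at h
      exact x1 (by linear_combination ρ * h + c1) e1
    · right
      rw [h5] at h
      have h7 : b2 * (1 + ρ ^ 3) = ρ ^ 3 := by linear_combination ρ ^ 3 * h + c2
      have h6 : ρ ^ 2 * (1 - ρ - ρ ^ 2 + ρ ^ 3) = 0 := by
        linear_combination (1 + ρ) * h7 - (1 + ρ ^ 3) * e2
      exact g1 ((mul_eq_zero.1 h6).resolve_left (pow_ne_zero 2 hρ))
    · right
      rw [h5] at h
      have h7 : b3 * (1 + ρ ^ 5) = ρ ^ 5 := by linear_combination ρ ^ 5 * h + c3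
      have h6 : ρ ^ 4 * (1 - ρ - ρ ^ 4 + ρ ^ 5) = 0 := by
        linear_combination (1 + ρ ^ 3) * h7 - (1 + ρ ^ 5) * e3
      exact g2 ((mul_eq_zero.1 h6).resolve_left (pow_ne_zero 4 hρ))

end Pool.Agent.Helper35.BR
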